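import Mathlib
open Matrix Equiv

namespace Pool.Agent.Results.MP_9bc296_ag.GenSym

variable {R : Type*} [CommRing R]

def cof {α : Type*} [Fintype α] [DecidableEq α] (S : Matrix α α R) : Matrix α α R :=
  fun j i => (S.updateCol j (Pi.single i 1)).permanent

lemma perm_upd {α : Type*} [Fintype α] [DecidableEq α] (S : Matrix α α R) (j : α) (u : α → R) :
    (S.updateCol j u).permanent = ∑ σ : Perm α, u (σ j) * ∏ b ∈ Finset.univ.erase j, S (σ b) b := by
  unfold permanent
  refine Finset.sum_congr rfl fun σ _ => ?_
  rw [← Finset.mul_prod_erase _ _ (Finset.mem_univ j)]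
  simp only [updateCol_self]
  congr 1
  refine Finset.prod_congr rfl fun b hb => ?_
  rw [updateCol_ne (Finset.ne_of_mem_erase hb)]

lemma cof_mulVec {α : Type*} [Fintype α] [DecidableEq α] (S : Matrix α α R) (u : α → R) (j : α) :
    (cof S *ᵥ u) j = (S.updateCol j u).permanent := by
  simp only [mulVec, dotProduct, cof, perm_upd, Finset.sum_mul]
  rw [Finset.sum_comm]
  refine Finset.sum_congr rfl fun σ _ => ?_
  rw [Finset.sum_eq_single (σ j)]
  · simp [mul_comm]
  · intro b _ hb
    simp [Pi.single_apply, hb.symm]
  · simp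

/-- Laplace expansion along column `none`. -/
lemma perm_option {α : Type*} [Fintype α] [DecidableEq α] (A : Matrix (Option α) (Option α) R) :
    A.permanent = A none none * (A.submatrix some some).permanent +
      ∑ a : α, A (some a) none * ((A.submatrix some some).updateRow a (fun b => A none (some b))).permanent := by
  unfold permanent
  rw [← Equiv.sum_comp Perm.decomposeOption.symm, Fintype.sum_prod_type, Fintype.sum_option]
  congr 1
  · rw [Finset.mul_sum]
    refine Finset.sum_congr rfl fun σ _ => ?_
    simp [Fintype.prod_option]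
  · refine Finset.sum_congr rfl fun a _ => ?_
    rw [Finset.mul_sum]
    refine Finset.sum_congr rfl fun σ _ => ?_
    simp only [Perm.decomposeOption_symm_apply, Fintype.prod_option, Perm.mul_apply,
      optionCongr_apply, Option.map_none, swap_apply_left, Option.map_some]
    congr 1
    refine Finset.prod_congr rfl fun b _ => ?_
    by_cases h : σ b = a
    · subst h; simp
    · rw [swap_apply_of_ne_of_ne (by simp) (by simpa using h), updateRow_ne h]; rfl


lemma perm_diag {α : Type*} [Fintype α] [DecidableEq α] (M : Matrix α α R) (a j : α) (haj : a ≠ j)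
    (h : ∀ i b, i ≠ b → i ≠ a → b ≠ j → M i b = 0) : M.permanent = ∏ b, M b b := by
  unfold permanent
  rw [Finset.sum_eq_single 1]
  · simp
  · intro σ _ hσ
    by_contra hne
    have key : ∀ b, σ b = b ∨ σ b = a ∨ b = j := by
      intro b
      by_contra hc
      push Not at hc
      exact hne (Finset.prod_eq_zero (Finset.mem_univ b) (h _ _ hc.1 hc.2.1 hc.2.2))
    have ha : σ a = a := by rcases key a with h1 | h1 | h1 <;> first | exact h1 | exact absurd h1 haj
    have hb : ∀ b, b ≠ j → σ b = b := by
      intro b hb
      rcases key b with h1 | h1 | h1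
      · exact h1
      · have : b = a := σ.injective (h1.trans ha.symm)
        rw [this, ha]
      · exact absurd h1 hb
    apply hσ
    ext b
    by_cases hbj : b = j
    · subst hbj
      by_contra hc
      have h2 := hb (σ b) hc
      exact hc (σ.injective h2)
    · exact hb b hbj
  · simp

lemma perm_arrow {α : Type*} [Fintype α] [DecidableEq α] (M : Matrix α α R) (j : α)
    (h : ∀ i b, i ≠ b → i ≠ j → b ≠ j → M i b = 0) :
    M.permanent = ∑ b, ∏ c, M (swap j b c) c := by
  unfold permanent
  rw [← Finset.sum_fiberwise (s := Finset.univ) (g := fun σ : Perm α => σ j)]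
  refine Finset.sum_congr rfl fun b _ => ?_
  rw [Finset.sum_eq_single (swap j b)]
  · intro σ hσ hne
    by_contra hz
    have hσj : σ j = b := by simpa using hσ
    have key : ∀ c, σ c = c ∨ σ c = j ∨ c = j := by
      intro c
      by_contra hc
      push Not at hc
      exact hz (Finset.prod_eq_zero (Finset.mem_univ c) (h _ _ hc.1 hc.2.1 hc.2.2))
    have hb : σ b = j := by
      rcases key b with h1 | h1 | h1
      · have : b = j := σ.injective (h1.trans hσj.symm)
        rw [h1, this]
      · exact h1
      · rw [h1, hσj, h1]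
    apply hne
    ext c
    by_cases hcj : c = j
    · subst hcj; simp [hσj]
    by_cases hcb : c = b
    · subst hcb; simp [hb]
    rw [swap_apply_of_ne_of_ne hcj hcb]
    rcases key c with h1 | h1 | h1
    · exact h1
    · exact absurd (σ.injective (h1.trans hb.symm)) hcb
    · exact absurd h1 hcj
  · simp

/-- The arrow matrix. -/
def arr (β : Type*) [Fintype β] [DecidableEq β] (R : Type*) [CommRing R] : Matrix (Option β) (Option β) R
  | none, none => -(Fintype.card β : R)
  | none, some _ => 1
  | some _, none => 1
  | some a, some b => if a = b then 1 else 0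

lemma prod_two {α : Type*} [Fintype α] [DecidableEq α] (f : α → R) (j b : α) (hb : b ≠ j)
    (h : ∀ c, c ≠ j → c ≠ b → f c = 1) : ∏ c, f c = f j * f b := by
  rw [← Finset.prod_pair hb.symm]
  symm
  refine Finset.prod_subset (Finset.subset_univ _) fun c _ hc => ?_
  simp only [Finset.mem_insert, Finset.mem_singleton, not_or] at hc
  exact h c hc.1 hc.2

lemma arrow_id {β : Type*} [Fintype β] [DecidableEq β] (M : Matrix β β R) (j : β)
    (h : ∀ i b, i ≠ j → b ≠ j → M i b = if i = b then 1 else 0) :
    M.permanent = M j j + ∑ b ∈ Finset.univ.erase j, M b j * M j b := by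
  rw [perm_arrow M j (fun i b h1 h2 h3 => by rw [h i b h2 h3, if_neg h1]),
    ← Finset.add_sum_erase _ _ (Finset.mem_univ j)]
  congr 1
  · rw [Finset.prod_eq_single j]
    · simp
    · intro c _ hc
      simp [h c c hc hc]
    · simp
  · refine Finset.sum_congr rfl fun b hb => ?_
    have hb' := Finset.ne_of_mem_erase hb
    rw [prod_two _ j b hb']
    · simp
    · intro c h1 h2
      rw [swap_apply_of_ne_of_ne h1 h2, h c c h1 h1, if_pos rfl]

lemma arr_none {β : Type*} [Fintype β] [DecidableEq β] (u : Option β → R) :
    ((arr β R).updateCol none u).permanent = ∑ i, u i := by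
  rw [arrow_id _ none]
  · rw [← Finset.add_sum_erase _ _ (Finset.mem_univ none)]
    simp only [updateCol_self]
    congr 1
    refine Finset.sum_congr rfl fun b hb => ?_
    have hb' := Finset.ne_of_mem_erase hb
    rw [updateCol_ne hb']
    cases b with
    | none => exact absurd rfl hb'
    | some b => simp [arr]
  · intro i b hi hb
    rw [updateCol_ne hb]
    cases i with
    | none => exact absurd rfl hi
    | some i =>
      cases b with
      | none => exact absurd rfl hb
      | some b => simp [arr]

lemma arr_perm {β : Type*} [Fintype β] [DecidableEq β] : (arr β R).permanent = 0 := by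
  have := arr_none (R := R) (β := β) (fun i => arr β R i none)
  rw [updateCol_eq_self] at this
  rw [this, Fintype.sum_option]
  simp [arr]

lemma arr_some {β : Type*} [Fintype β] [DecidableEq β] (u : Option β → R) (j : β) :
    ((arr β R).updateCol (some j) u).permanent = ∑ i, u i - 2 * u (some j) := by
  rw [perm_option]
  set A := (arr β R).updateCol (some j) u with hA
  have hA1 : ∀ i b, b ≠ j → A (some i) (some b) = if i = b then 1 else 0 := by
    intro i b hb
    rw [hA, updateCol_ne (by simpa using hb)]; rfl
  have hA2 : ∀ i, A i (some j) = u i := by intro i; rw [hA, updateCol_self]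
  have hA3 : ∀ b, b ≠ j → A none (some b) = 1 := by
    intro b hb
    rw [hA, updateCol_ne (by simpa using hb)]; rfl
  have hA4 : ∀ a, A (some a) none = 1 := by
    intro a
    rw [hA, updateCol_ne (by simp)]; rfl
  have hA5 : A none none = -(Fintype.card β : R) := by
    rw [hA, updateCol_ne (by simp)]; rfl
  have h1 : (A.submatrix some some).permanent = u (some j) := by
    rw [arrow_id (A.submatrix some some) j (fun i b _ hb => hA1 i b hb)]
    rw [Finset.sum_eq_zero]
    · simp [hA2]
    · intro b hb
      have hb' := Finset.ne_of_mem_erase hb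
      simp [hA1 j b hb', hb'.symm]
  have h2 : ((A.submatrix some some).updateRow j (fun b => A none (some b))).permanent
      = u none + ∑ b ∈ Finset.univ.erase j, u (some b) := by
    rw [arrow_id _ j (fun i b hi hb => by rw [updateRow_ne hi]; exact hA1 i b hb)]
    simp only [updateRow_self, hA2]
    congr 1
    refine Finset.sum_congr rfl fun b hb => ?_
    have hb' := Finset.ne_of_mem_erase hb
    rw [updateRow_ne hb', hA3 b hb']
    simp [hA2]
  have h3 : ∀ a, a ≠ j → ((A.submatrix some some).updateRow a (fun b => A none (some b))).permanent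
      = u (some j) := by
    intro a ha
    rw [perm_diag _ a j ha (fun i b h1 h2 h3 => by
      rw [updateRow_ne h2]; exact (hA1 i b h3).trans (if_neg h1))]
    rw [Finset.prod_eq_single j]
    · rw [updateRow_ne ha.symm]; exact hA2 _
    · intro c _ hc
      by_cases hca : c = a
      · subst hca; rw [updateRow_self]; exact hA3 c hc
      · rw [updateRow_ne hca]; exact (hA1 c c hc).trans (if_pos rfl)
    · simp
  have h4 : ∑ a ∈ Finset.univ.erase j, A (some a) none *
      ((A.submatrix some some).updateRow a (fun b => A none (some b))).permanent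
      = ∑ a ∈ Finset.univ.erase j, u (some j) :=
    Finset.sum_congr rfl (fun a ha => by rw [hA4, h3 a (Finset.ne_of_mem_erase ha), one_mul])
  rw [h1, hA5, ← Finset.add_sum_erase _ _ (Finset.mem_univ j), h2, hA4, h4,
    Fintype.sum_option, ← Finset.add_sum_erase _ (fun a => u (some a)) (Finset.mem_univ j)]
  have hc : 1 ≤ Fintype.card β := Fintype.card_pos_iff.2 ⟨j⟩
  simp only [Finset.sum_const, Finset.card_erase_of_mem (Finset.mem_univ j), Finset.card_univ,
    nsmul_eq_mul, Nat.cast_sub hc]
  push_cast
  ring

lemma cof_det_ne {K : Type*} [Field K] (h2 : (2 : K) ≠ 0) {β : Type*} [Fintype β] [DecidableEq β] :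
    (cof (arr β K)).det ≠ 0 := by
  intro hd
  obtain ⟨u, hu, hu0⟩ := Matrix.exists_mulVec_eq_zero_iff.2 hd
  apply hu
  have h0 : ∑ i, u i = 0 := by
    have := congrFun hu0 none
    rwa [cof_mulVec, arr_none] at this
  have h1 : ∀ j, u (some j) = 0 := by
    intro j
    have := congrFun hu0 (some j)
    rw [cof_mulVec, arr_some, h0] at this
    simpa [h2] using this
  funext i
  cases i with
  | none => rw [Fintype.sum_option] at h0; simpa [h1] using h0
  | some j => exact h1 j


lemma perm_reindex {α β : Type*} [Fintype α] [DecidableEq α] [Fintype β] [DecidableEq β]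
    (M : Matrix β β R) (e f : α ≃ β) : (M.submatrix e f).permanent = M.permanent := by
  have h1 : (M.submatrix f f).permanent = M.permanent := by
    unfold permanent
    rw [← Equiv.sum_comp (Equiv.permCongr f)]
    refine Finset.sum_congr rfl fun σ _ => ?_
    rw [← Equiv.prod_comp f]
    simp
  rw [← h1, ← permanent_permute_cols (e.trans f.symm) (M.submatrix f f)]
  congr 1
  ext i j
  simp

lemma perm_map {α : Type*} [Fintype α] [DecidableEq α] {S : Type*} [CommRing S] (φ : R →+* S)
    (M : Matrix α α R) : φ M.permanent = (M.map φ).permanent := by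
  simp [permanent, map_sum, map_prod]

/-- The ideal generated by the permanents of all `t × t` submatrices. -/
def permIdeal {R : Type*} [CommRing R] {m n : ℕ} (X : Matrix (Fin m) (Fin n) R) (t : ℕ) : Ideal R :=
  Ideal.span {f | ∃ (r : Fin t ↪ Fin m) (c : Fin t ↪ Fin n), f = (X.submatrix r c).permanent}

lemma permIdeal_transpose {m n : ℕ} (X : Matrix (Fin m) (Fin n) R) (t : ℕ) :
    permIdeal Xᵀ t = permIdeal X t := by
  unfold permIdeal
  congr 1
  ext f
  constructor
  · rintro ⟨r, c, rfl⟩
    exact ⟨c, r, by rw [← permanent_transpose]; rfl⟩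
  · rintro ⟨r, c, rfl⟩
    exact ⟨c, r, by rw [← permanent_transpose]; rfl⟩

lemma le_ker {m n t : ℕ} (X : Matrix (Fin m) (Fin n) R) {S : Type*} [CommRing S] (φ : R →+* S)
    (h : ∀ (r : Fin t ↪ Fin m) (c : Fin t ↪ Fin n), ((X.map φ).submatrix r c).permanent = 0) :
    ∀ f ∈ permIdeal X t, φ f = 0 := by
  intro f hf
  have : permIdeal X t ≤ RingHom.ker φ := by
    unfold permIdeal
    rw [Ideal.span_le]
    rintro _ ⟨r, c, rfl⟩
    simp only [SetLike.mem_coe, RingHom.mem_ker, perm_map]
    exact h r c
  exact this hf

/-- the arrow matrix padded by zeros -/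
def pad (K : Type*) [CommRing K] (s : ℕ) (i j : ℕ) : K :=
  if h : i < s + 1 ∧ j < s + 1 then
    arr (Fin s) K (finSuccEquiv s ⟨i, h.1⟩) (finSuccEquiv s ⟨j, h.2⟩) else 0

lemma arr_symm {β : Type*} [Fintype β] [DecidableEq β] (a b : Option β) : arr β R a b = arr β R b a := by
  cases a <;> cases b <;> simp [arr, eq_comm]

lemma pad_symm (s i j : ℕ) : pad R s i j = pad R s j i := by
  unfold pad
  by_cases h : i < s + 1 ∧ j < s + 1
  · rw [dif_pos h, dif_pos h.symm, arr_symm]
  · rw [dif_neg h, dif_neg (fun h' => h h'.symm)]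

lemma pad_perm {m n s : ℕ} (r : Fin (s + 1) ↪ Fin m) (c : Fin (s + 1) ↪ Fin n) :
    (Matrix.of fun i j => pad R s (r i) (c j)).permanent = 0 := by
  by_cases hr : ∀ i, (r i : ℕ) < s + 1
  · by_cases hc : ∀ j, (c j : ℕ) < s + 1
    · let ρ : Fin (s + 1) → Fin (s + 1) := fun i => ⟨r i, hr i⟩
      let γ : Fin (s + 1) → Fin (s + 1) := fun i => ⟨c i, hc i⟩
      have hρ : Function.Bijective ρ := Finite.injective_iff_bijective.1 fun a b h =>
        r.injective (Fin.ext (congrArg (fun x : Fin (s + 1) => (x : ℕ)) h))
      have hγ : Function.Bijective γ := Finite.injective_iff_bijective.1 fun a b h =>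
        c.injective (Fin.ext (congrArg (fun x : Fin (s + 1) => (x : ℕ)) h))
      rw [← arr_perm (R := R) (β := Fin s), ← perm_reindex (arr (Fin s) R)
        ((Equiv.ofBijective ρ hρ).trans (finSuccEquiv s)) ((Equiv.ofBijective γ hγ).trans (finSuccEquiv s))]
      congr 1
      ext i j
      simp only [of_apply, pad, submatrix_apply]
      rw [dif_pos ⟨hr i, hc j⟩]
      rfl
    · push Not at hc
      obtain ⟨j, hj⟩ := hc
      refine Finset.sum_eq_zero fun σ _ => Finset.prod_eq_zero (Finset.mem_univ j) ?_
      simp only [of_apply, pad]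
      rw [dif_neg (by omega)]
  · push Not at hr
    obtain ⟨i, hi⟩ := hr
    refine Finset.sum_eq_zero fun σ _ => Finset.prod_eq_zero (Finset.mem_univ (σ.symm i)) ?_
    simp only [of_apply, pad, apply_symm_apply]
    rw [dif_neg (by omega)]

theorem core {K : Type*} [Field K] (h2 : (2 : K) ≠ 0) {τ : Type*} {m n s : ℕ} (hs : 1 ≤ s)
    (hm : s + 1 ≤ m) (hn : s + 1 < n) (v : Fin m → Fin n → τ) (ψ : τ → K)
    (hψ : ∀ i j, ψ (v i j) = pad K s i j) :
    ¬ (permIdeal (Matrix.of fun i j => (MvPolynomial.X (v i j) : MvPolynomial τ K)) (s + 1)).IsPrime := by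
  intro hP
  set X : Matrix (Fin m) (Fin n) (MvPolynomial τ K) := Matrix.of fun i j => MvPolynomial.X (v i j) with hX
  let e := (finSuccEquiv s).symm
  let ι : Fin (s + 1) ↪ Fin m := Fin.castLEEmb hm
  let κ : Fin (s + 1) ↪ Fin n := Fin.castLEEmb hn.le
  let c0 : Fin n := ⟨s + 1, hn⟩
  let S : Matrix (Option (Fin s)) (Option (Fin s)) (MvPolynomial τ K) :=
    fun a b => X (ι (e a)) (κ (e b))
  let u : Option (Fin s) → MvPolynomial τ K := fun a => X (ι (e a)) c0
  have h1 : ∀ j, (cof S *ᵥ u) j ∈ permIdeal X (s + 1) := by
    intro j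
    rw [cof_mulVec]
    have hinj : Function.Injective (Function.update κ (e j) c0) := by
      have hne : ∀ a, κ a ≠ c0 := by
        intro a h
        have h' : (a : ℕ) = s + 1 := congrArg (fun x : Fin n => (x : ℕ)) h
        omega
      intro a b hab
      by_cases ha : a = e j <;> by_cases hb : b = e j
      · rw [ha, hb]
      · rw [ha, Function.update_self, Function.update_of_ne hb] at hab
        exact absurd hab.symm (hne b)
      · rw [hb, Function.update_self, Function.update_of_ne ha] at hab
        exact absurd hab (hne a)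
      · rw [Function.update_of_ne ha, Function.update_of_ne hb] at hab
        exact κ.injective hab
    refine Ideal.subset_span ⟨ι, ⟨_, hinj⟩, ?_⟩
    rw [← perm_reindex _ e e]
    congr 1
    ext a b
    by_cases hb : b = j
    · subst hb; simp [u]
    · rw [updateCol_ne hb]
      simp [S, Function.update_of_ne (e.injective.ne hb)]
  have h2' : (cof S).det * u none ∈ permIdeal X (s + 1) := by
    have : (cof S).det * u none = ((cof S).adjugate *ᵥ (cof S *ᵥ u)) none := by
      rw [mulVec_mulVec, adjugate_mul, smul_mulVec, one_mulVec]; rfl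
    rw [this]
    generalize cof S *ᵥ u = w at h1
    generalize (cof S).adjugate = B
    change ∑ j, B none j * w j ∈ _
    exact Ideal.sum_mem _ fun j _ => Ideal.mul_mem_left _ _ (h1 j)
  rcases hP.mem_or_mem h2' with h | h
  · have := le_ker X (MvPolynomial.eval ψ) (fun r c => by
      rw [← pad_perm (R := K) r c]
      congr 1
      ext i j
      simp [hX, hψ]) _ h
    rw [RingHom.map_det] at this
    apply cof_det_ne h2 (β := Fin s)
    rw [← this]
    congr 1
    ext j i
    simp only [cof, RingHom.mapMatrix_apply, map_apply, perm_map]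
    congr 1
    ext a b
    by_cases hb : b = j
    · subst hb
      simp [Pi.single_apply]
    · simp only [map_apply, updateCol_ne hb, S, hX, of_apply, MvPolynomial.eval_X, hψ, pad]
      rw [dif_pos ⟨(e a).2, (e b).2⟩]
      simp [e, ι, κ]
  · have := le_ker X (MvPolynomial.aeval (fun _ => (DualNumber.eps : DualNumber K))).toRingHom
      (fun r c => by
        refine Finset.sum_eq_zero fun σ _ => ?_
        have : ∏ i, ((X.map (MvPolynomial.aeval (fun _ => (DualNumber.eps : DualNumber K))).toRingHom).submatrix r c) (σ i) i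
            = ∏ _i : Fin (s + 1), (DualNumber.eps : DualNumber K) :=
          Finset.prod_congr rfl fun i _ => by simp [hX]
        rw [this, Finset.prod_const, Finset.card_univ, Fintype.card_fin]
        obtain ⟨s', rfl⟩ : ∃ s', s = s' + 1 := ⟨s - 1, by omega⟩
        rw [pow_succ, pow_succ, mul_assoc, DualNumber.eps_mul_eps, mul_zero]) _ h
    simp only [u, hX, of_apply, AlgHom.toRingHom_eq_coe, RingHom.coe_coe, MvPolynomial.aeval_X] at this
    have := congrArg TrivSqZeroExt.snd this
    simp at this


theorem result (K : Type) [Field K] (h2 : ringChar K ≠ 2) (t : ℕ) (ht : 2 ≤ t) :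
    (∀ m n : ℕ, t ≤ m → t ≤ n → ¬ (t = m ∧ t = n) →
      ¬ (permIdeal (Matrix.of fun (i : Fin m) (j : Fin n) =>
          (MvPolynomial.X (i, j) : MvPolynomial (Fin m × Fin n) K)) t).IsPrime) ∧
    (∀ n : ℕ, t < n →
      ¬ (permIdeal (Matrix.of fun (i : Fin n) (j : Fin n) =>
          (MvPolynomial.X s(i, j) : MvPolynomial (Sym2 (Fin n)) K)) t).IsPrime) := by
  have h2' : (2 : K) ≠ 0 := Ring.two_ne_zero h2
  obtain ⟨s, rfl⟩ : ∃ s, t = s + 1 := ⟨t - 1, by omega⟩
  refine ⟨fun m n hm hn hne => ?_, fun n hn => ?_⟩
  · by_cases hlt : s + 1 < n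
    · exact core h2' (by omega) hm hlt (fun i j => (i, j)) (fun x => pad K s x.1 x.2) (fun _ _ => rfl)
    · rw [← permIdeal_transpose]
      exact core h2' (by omega) hn (by omega) (fun i j => (j, i)) (fun x => pad K s x.2 x.1)
        (fun _ _ => rfl)
  · exact core h2' (by omega) hn.le hn (fun i j => s(i, j))
      (Sym2.lift ⟨fun i j => pad K s i j, fun i j => pad_symm _ _ _⟩) (fun _ _ => rfl)

end Pool.Agent.Results.MP_9bc296_ag.GenSym
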